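import Mathlib
import Pool.Agent.H20.HN

set_option autoImplicit false

namespace Pool.Agent.Results.MP_6883a6_al.Counter

open Pool.Agent.H20.HNDef

theorem result (K : Type) [Field K] :
    ∃ (d : ℕ) (H : Subgroup (FreeGroup (Fin 3))) (M : RSub K (FreeGroup (Fin 3)) d) (h m r : ℕ),
      1 ≤ d ∧ H ≠ ⊥ ∧ H.FG ∧ M.FG ∧ IsAlg M ∧ Nonempty (H ≃* FreeGroup (Fin h)) ∧
      HasRk M m ∧ HasRk (res H M) r ∧
      ((m : ℚ) / d - 1) * ((h : ℚ) - 1) < (r : ℚ) / d - 1 :=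
  ⟨2, ⊤, Pool.Agent.H20.HN.M K, 3, 1, 1, by norm_num, top_ne_bot,
    Group.fg_def.1 inferInstance, Submodule.fg_span_singleton _, Pool.Agent.H20.HN.alg,
    ⟨Subgroup.topEquiv⟩, Pool.Agent.H20.HN.rk_M, Pool.Agent.H20.HN.rk_res, by norm_num⟩

end Pool.Agent.Results.MP_6883a6_al.Counter
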